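import Mathlib
import Pool.Agent.Y503.RB.Stm

/-!
# Project RB, COUNT: multiplicities in the change of variables

Job 7261 (poster helper503).
-/

set_option autoImplicit false

namespace Pool.Agent.Y43.RB

open scoped ContDiff ENNReal Topology
open MeasureTheory Set Pool.Agent.Y503.RB

/-- local injectivity -/
lemma loc {F : E4 → E4} {R : Set E4} (hR : IsOpen R) (hF : ContDiffOn ℝ ∞ F R)
    (hd : ∀ x ∈ R, (fderiv ℝ F x).det ≠ 0) (x : E4) (hx : x ∈ R) :
    ∃ W : Set E4, IsOpen W ∧ x ∈ W ∧ InjOn F W := by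
  have h1 : ContDiffAt ℝ ∞ F x := hF.contDiffAt (hR.mem_nhds hx)
  have h2 : HasStrictFDerivAt F (fderiv ℝ F x) x := h1.hasStrictFDerivAt (by simp)
  rw [← (fderiv ℝ F x).coe_toContinuousLinearEquivOfDetNeZero (hd x hx)] at h2
  exact ⟨(h2.toOpenPartialHomeomorph F).source, (h2.toOpenPartialHomeomorph F).open_source,
    h2.mem_toOpenPartialHomeomorph_source, (h2.toOpenPartialHomeomorph F).injOn⟩

/-- countable cover -/
lemma cov {F : E4 → E4} {R : Set E4} (hR : IsOpen R) (hF : ContDiffOn ℝ ∞ F R)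
    (hd : ∀ x ∈ R, (fderiv ℝ F x).det ≠ 0) :
    ∃ W : ℕ → Set E4, (∀ n, IsOpen (W n)) ∧ (∀ n, InjOn F (W n)) ∧ R ⊆ ⋃ n, W n := by
  have h0 := loc hR hF hd
  choose! W hWo hWm hWi using h0
  obtain ⟨t, htR, htc, htU⟩ := TopologicalSpace.countable_cover_nhdsWithin (f := W) (s := R)
    (fun x hx => mem_nhdsWithin_of_mem_nhds ((hWo x hx).mem_nhds (hWm x hx)))
  rcases t.eq_empty_or_nonempty with h | h
  · refine ⟨fun _ => ∅, fun _ => isOpen_empty, fun _ => injOn_empty _, ?_⟩
    rw [h] at htU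
    intro x hx
    have := htU hx
    simp at this
  · obtain ⟨u, hu⟩ := htc.exists_eq_range h
    have hut : ∀ n, u n ∈ t := fun n => by rw [hu]; exact mem_range_self n
    refine ⟨fun n => W (u n), fun n => hWo _ (htR (hut n)), fun n => hWi _ (htR (hut n)), ?_⟩
    intro x hx
    obtain ⟨y, hy, hxy⟩ := mem_iUnion₂.1 (htU hx)
    rw [hu] at hy
    obtain ⟨n, rfl⟩ := hy
    exact mem_iUnion.2 ⟨n, hxy⟩

theorem count : St_COUNT := by
  classical
  intro F R hR hF hd A hA hAR B k hB
  obtain ⟨W, hWo, hWi, hWc⟩ := cov hR hF hd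
  let D : ℕ → Set E4 := fun n => A ∩ disjointed W n
  have hDm : ∀ n, MeasurableSet (D n) := fun n =>
    hA.inter (MeasurableSet.disjointed (fun i => (hWo i).measurableSet) n)
  have hDd : Pairwise (Function.onFun Disjoint D) := by
    intro i j hij
    exact (disjoint_disjointed W hij).mono inter_subset_right inter_subset_right
  have hDi : ∀ n, InjOn F (D n) := fun n =>
    (hWi n).mono (inter_subset_right.trans (disjointed_le W n))
  have hDU : ⋃ n, D n = A := by
    rw [← inter_iUnion, iUnion_disjointed]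
    exact inter_eq_left.2 (hAR.trans hWc)
  have hDR : ∀ n, D n ⊆ R := fun n => inter_subset_left.trans hAR
  have hIm : ∀ n, MeasurableSet (F '' D n) := fun n =>
    (hDm n).image_of_continuousOn_injOn (hF.continuousOn.mono (hDR n)) (hDi n)
  have hvol : ∀ n, volume (F '' D n) ≤ ∫⁻ x in D n, ENNReal.ofReal |(fderiv ℝ F x).det| := by
    intro n
    apply addHaar_image_le_lintegral_abs_det_fderiv volume (hDm n)
    intro x hx
    have h1 : ContDiffAt ℝ ∞ F x := hF.contDiffAt (hR.mem_nhds (hDR n hx))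
    exact (h1.differentiableAt (by simp)).hasFDerivAt.hasFDerivWithinAt
  let g : E4 → ℝ≥0∞ := fun y => ∑' n, (F '' D n).indicator 1 y
  have hgm : Measurable g :=
    Measurable.tsum (fun n => measurable_one.indicator (hIm n))
  have hkg : ∀ y ∈ B, (k : ℝ≥0∞) ≤ g y := by
    intro y hy
    obtain ⟨s, hs, hsA⟩ := hB y hy
    have hidx : ∀ x ∈ s, ∃ n, x ∈ D n := by
      intro x hx
      have := (hsA x hx).1
      rw [← hDU] at this
      exact mem_iUnion.1 this
    choose! m hm using hidx
    have hinj : InjOn m s := by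
      intro x hx x' hx' e
      apply hDi (m x) (hm x hx)
      · rw [e]
        exact hm x' hx'
      · rw [(hsA x hx).2, (hsA x' hx').2]
    have hcard : (s.image m).card = k := by
      rw [Finset.card_image_of_injOn hinj, hs]
    calc (k : ℝ≥0∞) = ∑ n ∈ s.image m, 1 := by
          rw [Finset.sum_const, hcard, nsmul_eq_mul, mul_one]
      _ = ∑ n ∈ s.image m, (F '' D n).indicator 1 y := by
          apply Finset.sum_congr rfl
          intro n hn
          obtain ⟨x, hx, rfl⟩ := Finset.mem_image.1 hn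
          have : y ∈ F '' D (m x) := ⟨x, hm x hx, (hsA x hx).2⟩
          rw [indicator_of_mem this]
          rfl
      _ ≤ g y := ENNReal.sum_le_tsum _
  calc (k : ℝ≥0∞) * volume B ≤ k * volume {y | (k : ℝ≥0∞) ≤ g y} := by
        gcongr
        exact fun y hy => hkg y hy
    _ ≤ ∫⁻ y, g y := mul_meas_ge_le_lintegral hgm _
    _ = ∑' n, ∫⁻ y, (F '' D n).indicator 1 y :=
        lintegral_tsum (fun n => (measurable_one.indicator (hIm n)).aemeasurable)
    _ = ∑' n, volume (F '' D n) := by
        congr 1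
        ext n
        exact lintegral_indicator_one (hIm n)
    _ ≤ ∑' n, ∫⁻ x in D n, ENNReal.ofReal |(fderiv ℝ F x).det| := ENNReal.tsum_le_tsum hvol
    _ = ∫⁻ x in ⋃ n, D n, ENNReal.ofReal |(fderiv ℝ F x).det| :=
        (lintegral_iUnion hDm hDd _).symm
    _ = ∫⁻ x in A, ENNReal.ofReal |(fderiv ℝ F x).det| := by rw [hDU]

end Pool.Agent.Y43.RB
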